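import Mathlib

set_option autoImplicit false

universe u

namespace Pool.Agent.Results.MP_45ad35_al.Covering

/-- `o`-conjugacy in a semigroup `S`: the multipliers range over `S` with an identity adjoined. -/
def OConj {S : Type u} [Semigroup S] (a b : S) : Prop :=
  ∃ g h : WithOne S, (a : WithOne S) * g = g * (b : WithOne S) ∧
    (b : WithOne S) * h = h * (a : WithOne S)

theorem result (X : Type u) [Nonempty X] (τ : Setoid X) :
    ∃ inst : Semigroup X, ∀ a b : X, @OConj X inst a b ↔ τ a b := by
  classical
  have : Nonempty (Quotient τ) := ⟨Quotient.mk τ (Classical.arbitrary X)⟩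
  obtain ⟨R⟩ : Nonempty (CommRing (Quotient τ)) := nonempty_commRing _
  let inst : Semigroup X :=
    { mul := fun x y => (Quotient.mk τ x + Quotient.mk τ y).out
      mul_assoc := fun x y z => by
        change (Quotient.mk τ (Quotient.mk τ x + Quotient.mk τ y).out + Quotient.mk τ z).out =
          (Quotient.mk τ x + Quotient.mk τ (Quotient.mk τ y + Quotient.mk τ z).out).out
        rw [Quotient.out_eq, Quotient.out_eq, add_assoc] }
  have hmul : ∀ x y : X, x * y = (Quotient.mk τ x + Quotient.mk τ y).out := fun _ _ => rfl
  refine ⟨inst, fun a b => ⟨?_, fun h => ?_⟩⟩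
  · rintro ⟨g, -, hg, -⟩
    induction g using WithOne.recOneCoe with
    | one =>
      have : a = b := by simpa using hg
      exact this ▸ τ.refl a
    | coe g =>
      rw [← WithOne.coe_mul, ← WithOne.coe_mul, WithOne.coe_inj, hmul, hmul] at hg
      have h2 := Quotient.out_injective hg
      rw [add_comm] at h2
      exact Quotient.exact (add_left_cancel h2)
  · have h2 : Quotient.mk τ a = Quotient.mk τ b := Quotient.sound h
    refine ⟨(a : WithOne X), (a : WithOne X), ?_, ?_⟩
    · rw [← WithOne.coe_mul, ← WithOne.coe_mul, hmul, hmul, h2]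
    · rw [← WithOne.coe_mul, ← WithOne.coe_mul, hmul, hmul, h2]

end Pool.Agent.Results.MP_45ad35_al.Covering
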